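import Mathlib

/-!
# No large common ball for max-sum matchings, in all dimensions `d ≥ 2`

Let `k` be large. Consider the six points `(± k³, k²)`, `(0, 0)`, `(0, 1)`, `(0, 5)`, `(0, -5)` of a
plane. Their minimum distance is `1`. The matching which pairs `(k³, k²)` with `(0, 0)`,
`(-k³, k²)` with `(0, 1)` and `(0, 5)` with `(0, -5)` is a max-sum matching: there are weights `w`
with `|x - y| ≤ w x + w y` for all pairs and equality for the pairs of the matching. The first two
balls are almost half-spaces which meet in a wedge with an opening angle of about `2 / k`, and the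
third ball has radius `5`. Hence the intersection of the balls does not contain a ball of radius
larger than `5 / k`.
-/

set_option autoImplicit false

namespace Pool.Agent.Results.MP_70625d_co.NoCommonBallFromDimTwo

open Finset

section general

variable {E : Type*} [NormedAddCommGroup E] [InnerProductSpace ℝ E] {e f : E}

/-- the point with coordinates `a, b` in the plane spanned by `e, f` -/
def P (e f : E) (a b : ℝ) : E := a • e + b • f

theorem inner_P (he : ‖e‖ = 1) (hf : ‖f‖ = 1) (hef : inner ℝ e f = 0) (a b c d : ℝ) :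
    inner ℝ (P e f a b) (P e f c d) = a * c + b * d := by
  have hee : inner ℝ e e = 1 := by rw [real_inner_self_eq_norm_sq, he]; norm_num
  have hff : inner ℝ f f = 1 := by rw [real_inner_self_eq_norm_sq, hf]; norm_num
  have hfe : inner ℝ f e = 0 := by rw [real_inner_comm]; exact hef
  simp only [P, inner_add_left, inner_add_right, real_inner_smul_left, real_inner_smul_right, hee,
    hff, hef, hfe]
  ring

theorem P_sub (a b c d : ℝ) : P e f a b - P e f c d = P e f (a - c) (b - d) := by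
  simp only [P, sub_smul]
  abel

theorem dist_P (he : ‖e‖ = 1) (hf : ‖f‖ = 1) (hef : inner ℝ e f = 0) (a b c d : ℝ) :
    dist (P e f a b) (P e f c d) = Real.sqrt ((a - c) ^ 2 + (b - d) ^ 2) := by
  rw [dist_eq_norm, P_sub, ← Real.sqrt_sq (norm_nonneg (P e f (a - c) (b - d))),
    ← real_inner_self_eq_norm_sq, inner_P he hf hef]
  congr 1
  ring

theorem inner_nonpos_of_norm {a b : E} (h : ‖a + b‖ ≤ ‖b - a‖) : inner ℝ a b ≤ 0 := by
  have h4 : ‖a + b‖ ^ 2 ≤ ‖b - a‖ ^ 2 := pow_le_pow_left₀ (norm_nonneg _) h 2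
  rw [norm_add_sq_real, norm_sub_sq_real] at h4
  linarith [real_inner_comm a b]

/-- Points of the ball with diameter `x y`. -/
theorem inner_nonpos_of_mem {x y z : E} (h : z ∈ Metric.closedBall (midpoint ℝ x y) (dist x y / 2)) :
    inner ℝ (z - x) (z - y) ≤ 0 := by
  rw [Metric.mem_closedBall, dist_eq_norm, dist_eq_norm] at h
  have hm : midpoint ℝ x y = (1 / 2 : ℝ) • (x + y) := by
    rw [midpoint_eq_smul_add]
    norm_num
  have h1 : z - midpoint ℝ x y = (1 / 2 : ℝ) • ((z - x) + (z - y)) := by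
    rw [hm]
    module
  have h2 : x - y = (z - y) - (z - x) := by abel
  rw [h1, norm_smul, h2] at h
  have h3 : ‖(z - x) + (z - y)‖ ≤ ‖(z - y) - (z - x)‖ := by
    have : ‖(1 / 2 : ℝ)‖ = 1 / 2 := by norm_num
    rw [this] at h
    linarith
  exact inner_nonpos_of_norm h3

theorem norm_sq_ge (he : ‖e‖ = 1) (hf : ‖f‖ = 1) (hef : inner ℝ e f = 0) (z : E) :
    (inner ℝ e z) ^ 2 + (inner ℝ f z) ^ 2 ≤ inner ℝ z z := by
  have hee : inner ℝ e e = 1 := by rw [real_inner_self_eq_norm_sq, he]; norm_num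
  have hff : inner ℝ f f = 1 := by rw [real_inner_self_eq_norm_sq, hf]; norm_num
  have hfe : inner ℝ f e = 0 := by rw [real_inner_comm]; exact hef
  have h : 0 ≤ inner ℝ (z - P e f (inner ℝ e z) (inner ℝ f z))
      (z - P e f (inner ℝ e z) (inner ℝ f z)) := real_inner_self_nonneg
  simp only [P, inner_sub_left, inner_sub_right, inner_add_left, inner_add_right,
    real_inner_smul_left, real_inner_smul_right, hee, hff, hef, hfe, real_inner_comm e z,
    real_inner_comm f z] at h
  have h1 : inner ℝ z e = inner ℝ e z := real_inner_comm e z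
  have h2 : inner ℝ z f = inner ℝ f z := real_inner_comm f z
  nlinarith [h, h1, h2]

theorem inner_sub_P_ge (he : ‖e‖ = 1) (hf : ‖f‖ = 1) (hef : inner ℝ e f = 0) (z : E)
    (a b c d : ℝ) :
    (inner ℝ e z - a) * (inner ℝ e z - c) + (inner ℝ f z - b) * (inner ℝ f z - d) ≤
      inner ℝ (z - P e f a b) (z - P e f c d) := by
  have h := norm_sq_ge he hf hef z
  have h1 : inner ℝ z e = inner ℝ e z := real_inner_comm e z
  have h2 : inner ℝ z f = inner ℝ f z := real_inner_comm f z
  have h3 := inner_P he hf hef a b c d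
  have h4 : inner ℝ (z - P e f a b) (z - P e f c d) =
      inner ℝ z z - inner ℝ z (P e f c d) - inner ℝ (P e f a b) z +
        inner ℝ (P e f a b) (P e f c d) := by
    simp only [inner_sub_left, inner_sub_right]
    ring
  rw [h4, h3]
  simp only [P, inner_add_left, inner_add_right, real_inner_smul_left, real_inner_smul_right, h1, h2]
  nlinarith

/-- the six points -/
def pts (e f : E) (k : ℝ) : Fin 6 → E :=
  ![P e f (k ^ 3) (k ^ 2), P e f (-k ^ 3) (k ^ 2), P e f 0 0, P e f 0 1, P e f 0 5, P e f 0 (-5)]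

/-- the matching -/
def sw : Equiv.Perm (Fin 6) :=
  Function.Involutive.toPerm ![2, 3, 0, 1, 5, 4] (by intro i; revert i; decide)

/-- the weights -/
noncomputable def w (k : ℝ) : Fin 6 → ℝ :=
  ![Real.sqrt (k ^ 6 + k ^ 4) - 2, Real.sqrt (k ^ 6 + k ^ 4) - 2, 2,
    Real.sqrt (k ^ 6 + (k ^ 2 - 1) ^ 2) - Real.sqrt (k ^ 6 + k ^ 4) + 2, 5, 5]

variable (he : ‖e‖ = 1) (hf : ‖f‖ = 1) (hef : inner ℝ e f = 0) {k : ℝ} (hk : 5 ≤ k)
include hk

theorem cube_ge : 5 * k ^ 2 ≤ k ^ 3 := by
  have h1 : 0 ≤ (k - 5) * k ^ 2 := mul_nonneg (by linarith) (by positivity)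
  nlinarith

theorem dp_ge : k ^ 3 + 2 ≤ Real.sqrt (k ^ 6 + k ^ 4) := by
  apply Real.le_sqrt_of_sq_le
  have h1 : (0 : ℝ) ≤ k ^ 3 * (k - 5) := mul_nonneg (by positivity) (by linarith)
  have h2 := cube_ge hk
  have h3 : (25 : ℝ) ≤ k ^ 2 := by nlinarith
  nlinarith

theorem dq_ge : Real.sqrt (k ^ 6 + k ^ 4) ≤ Real.sqrt (k ^ 6 + (k ^ 2 - 1) ^ 2) + 1 := by
  have h0 : k ^ 2 - 1 ≤ Real.sqrt (k ^ 6 + (k ^ 2 - 1) ^ 2) :=
    Real.le_sqrt_of_sq_le (by nlinarith [sq_nonneg (k ^ 3)])
  have h1 := Real.sq_sqrt (show (0 : ℝ) ≤ k ^ 6 + (k ^ 2 - 1) ^ 2 by positivity)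
  apply Real.sqrt_le_iff.2 ⟨by positivity, ?_⟩
  nlinarith

theorem db_le : Real.sqrt (k ^ 6 + (k ^ 2 + 5) ^ 2) ≤ Real.sqrt (k ^ 6 + k ^ 4) + 3 := by
  have h0 := dp_ge hk
  have h1 := Real.sq_sqrt (show (0 : ℝ) ≤ k ^ 6 + k ^ 4 by positivity)
  apply Real.sqrt_le_iff.2 ⟨by positivity, ?_⟩
  have h3 := cube_ge hk
  nlinarith

theorem da_le : Real.sqrt (k ^ 6 + (k ^ 2 - 5) ^ 2) ≤ Real.sqrt (k ^ 6 + k ^ 4) + 3 := by
  have h0 := dp_ge hk
  have h1 := Real.sq_sqrt (show (0 : ℝ) ≤ k ^ 6 + k ^ 4 by positivity)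
  apply Real.sqrt_le_iff.2 ⟨by positivity, ?_⟩
  have h3 := cube_ge hk
  nlinarith [sq_nonneg k]

include he hf hef in
/-- The distances are at most the sums of the weights. -/
theorem dist_le : ∀ i j : Fin 6, i ≠ j → dist (pts e f k i) (pts e f k j) ≤ w k i + w k j := by
  have hp := dp_ge hk
  have hq := dq_ge hk
  have ha := da_le hk
  have hb := db_le hk
  have hc := cube_ge hk
  have e1 : dist (pts e f k 0) (pts e f k 1) = 2 * k ^ 3 := by
    simp only [pts, Fin.isValue, Matrix.cons_val]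
    rw [dist_P he hf hef]
    rw [show (k ^ 3 - -k ^ 3) ^ 2 + (k ^ 2 - k ^ 2) ^ 2 = (2 * k ^ 3) ^ 2 by ring]
    exact Real.sqrt_sq (by positivity)
  have key : ∀ i j : Fin 6, i < j → dist (pts e f k i) (pts e f k j) ≤ w k i + w k j := by
    intro i j hij
    fin_cases i <;> fin_cases j <;> first | (exact absurd hij (by decide)) | skip
    · change dist (pts e f k 0) (pts e f k 1) ≤ _
      rw [e1]
      simp only [w, Fin.isValue, Matrix.cons_val, Fin.zero_eta, Fin.mk_one]
      linarith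
    · simp only [pts, w, Fin.isValue, Matrix.cons_val, Fin.zero_eta, Fin.reduceFinMk]
      rw [dist_P he hf hef]
      rw [show (k ^ 3 - 0) ^ 2 + (k ^ 2 - 0) ^ 2 = k ^ 6 + k ^ 4 by ring]
      linarith
    · simp only [pts, w, Fin.isValue, Matrix.cons_val, Fin.zero_eta, Fin.reduceFinMk]
      rw [dist_P he hf hef]
      rw [show (k ^ 3 - 0) ^ 2 + (k ^ 2 - 1) ^ 2 = k ^ 6 + (k ^ 2 - 1) ^ 2 by ring]
      linarith
    · simp only [pts, w, Fin.isValue, Matrix.cons_val, Fin.zero_eta, Fin.reduceFinMk]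
      rw [dist_P he hf hef]
      rw [show (k ^ 3 - 0) ^ 2 + (k ^ 2 - 5) ^ 2 = k ^ 6 + (k ^ 2 - 5) ^ 2 by ring]
      linarith
    · simp only [pts, w, Fin.isValue, Matrix.cons_val, Fin.zero_eta, Fin.reduceFinMk]
      rw [dist_P he hf hef]
      rw [show (k ^ 3 - 0) ^ 2 + (k ^ 2 - -5) ^ 2 = k ^ 6 + (k ^ 2 + 5) ^ 2 by ring]
      linarith
    · simp only [pts, w, Fin.isValue, Matrix.cons_val, Fin.mk_one, Fin.reduceFinMk]
      rw [dist_P he hf hef]
      rw [show (-k ^ 3 - 0) ^ 2 + (k ^ 2 - 0) ^ 2 = k ^ 6 + k ^ 4 by ring]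
      linarith
    · simp only [pts, w, Fin.isValue, Matrix.cons_val, Fin.mk_one, Fin.reduceFinMk]
      rw [dist_P he hf hef]
      rw [show (-k ^ 3 - 0) ^ 2 + (k ^ 2 - 1) ^ 2 = k ^ 6 + (k ^ 2 - 1) ^ 2 by ring]
      linarith
    · simp only [pts, w, Fin.isValue, Matrix.cons_val, Fin.mk_one, Fin.reduceFinMk]
      rw [dist_P he hf hef]
      rw [show (-k ^ 3 - 0) ^ 2 + (k ^ 2 - 5) ^ 2 = k ^ 6 + (k ^ 2 - 5) ^ 2 by ring]
      linarith
    · simp only [pts, w, Fin.isValue, Matrix.cons_val, Fin.mk_one, Fin.reduceFinMk]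
      rw [dist_P he hf hef]
      rw [show (-k ^ 3 - 0) ^ 2 + (k ^ 2 - -5) ^ 2 = k ^ 6 + (k ^ 2 + 5) ^ 2 by ring]
      linarith
    · simp only [pts, w, Matrix.cons_val, Fin.reduceFinMk]
      rw [dist_P he hf hef, Real.sqrt_le_iff]
      constructor <;> nlinarith
    · simp only [pts, w, Matrix.cons_val, Fin.reduceFinMk]
      rw [dist_P he hf hef, Real.sqrt_le_iff]
      constructor <;> norm_num
    · simp only [pts, w, Matrix.cons_val, Fin.reduceFinMk]
      rw [dist_P he hf hef, Real.sqrt_le_iff]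
      constructor <;> norm_num
    · simp only [pts, w, Matrix.cons_val, Fin.reduceFinMk]
      rw [dist_P he hf hef, Real.sqrt_le_iff]
      constructor <;> nlinarith
    · simp only [pts, w, Matrix.cons_val, Fin.reduceFinMk]
      rw [dist_P he hf hef, Real.sqrt_le_iff]
      constructor <;> nlinarith
    · simp only [pts, w, Matrix.cons_val, Fin.reduceFinMk]
      rw [dist_P he hf hef, Real.sqrt_le_iff]
      constructor <;> norm_num
  intro i j hij
  rcases lt_or_gt_of_ne hij with h | h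
  · exact key i j h
  · rw [dist_comm, add_comm]
    exact key j i h

omit hk in
include he hf hef in
/-- Equality for the pairs of the matching. -/
theorem dist_sw (i : Fin 6) : dist (pts e f k i) (pts e f k (sw i)) = w k i + w k (sw i) := by
  have e0 : dist (pts e f k 0) (pts e f k 2) = w k 0 + w k 2 := by
    simp only [pts, w, Fin.isValue, Matrix.cons_val]
    rw [dist_P he hf hef, show (k ^ 3 - 0) ^ 2 + (k ^ 2 - 0) ^ 2 = k ^ 6 + k ^ 4 by ring]
    ring
  have e1 : dist (pts e f k 1) (pts e f k 3) = w k 1 + w k 3 := by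
    simp only [pts, w, Fin.isValue, Matrix.cons_val]
    rw [dist_P he hf hef,
      show (-k ^ 3 - 0) ^ 2 + (k ^ 2 - 1) ^ 2 = k ^ 6 + (k ^ 2 - 1) ^ 2 by ring]
    ring
  have e2 : dist (pts e f k 4) (pts e f k 5) = w k 4 + w k 5 := by
    simp only [pts, w, Fin.isValue, Matrix.cons_val]
    rw [dist_P he hf hef, show ((0 : ℝ) - 0) ^ 2 + (5 - -5) ^ 2 = 10 ^ 2 by norm_num,
      Real.sqrt_sq (by norm_num)]
    norm_num
  fin_cases i
  · exact e0
  · exact e1
  · change dist (pts e f k 2) (pts e f k 0) = w k 2 + w k 0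
    rw [dist_comm, e0, add_comm]
  · change dist (pts e f k 3) (pts e f k 1) = w k 3 + w k 1
    rw [dist_comm, e1, add_comm]
  · exact e2
  · change dist (pts e f k 5) (pts e f k 4) = w k 5 + w k 4
    rw [dist_comm, e2, add_comm]

include he hf hef in
/-- All the distances are at least one. -/
theorem one_le_dist : ∀ i j : Fin 6, i ≠ j → 1 ≤ dist (pts e f k i) (pts e f k j) := by
  have hc := cube_ge hk
  have h25 : (25 : ℝ) ≤ k ^ 2 := by nlinarith
  have h125 : (125 : ℝ) ≤ k ^ 3 := by linarith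
  have h6 : (1 : ℝ) ≤ k ^ 6 := by nlinarith
  have key : ∀ i j : Fin 6, i < j → 1 ≤ dist (pts e f k i) (pts e f k j) := by
    intro i j hij
    fin_cases i <;> fin_cases j <;> first | (exact absurd hij (by decide)) | skip
    all_goals
      simp only [pts, Fin.isValue, Matrix.cons_val, Fin.mk_one, Fin.zero_eta, Fin.reduceFinMk]
      rw [dist_P he hf hef]
      apply Real.le_sqrt_of_sq_le
      nlinarith [sq_nonneg (k ^ 2), sq_nonneg (k ^ 2 - 1), sq_nonneg (k ^ 2 - 5),
        sq_nonneg (k ^ 2 + 5), sq_nonneg (k ^ 3)]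
  intro i j hij
  rcases lt_or_gt_of_ne hij with h | h
  · exact key i j h
  · rw [dist_comm]
    exact key j i h

include he hf hef in
/-- The intersection of the balls lies in a thin wedge. -/
theorem bounds {z : E} (h0 : z ∈ Metric.closedBall (midpoint ℝ (pts e f k 0) (pts e f k 2))
      (dist (pts e f k 0) (pts e f k 2) / 2))
    (h1 : z ∈ Metric.closedBall (midpoint ℝ (pts e f k 1) (pts e f k 3))
      (dist (pts e f k 1) (pts e f k 3) / 2))
    (h2 : z ∈ Metric.closedBall (midpoint ℝ (pts e f k 4) (pts e f k 5))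
      (dist (pts e f k 4) (pts e f k 5) / 2)) : |inner ℝ e z| ≤ 5 / k := by
  have hk0 : 0 < k := by linarith
  have a0 := (inner_sub_P_ge he hf hef z _ _ _ _).trans (inner_nonpos_of_mem h0)
  have a1 := (inner_sub_P_ge he hf hef z _ _ _ _).trans (inner_nonpos_of_mem h1)
  have a2 := (inner_sub_P_ge he hf hef z _ _ _ _).trans (inner_nonpos_of_mem h2)
  set x := inner ℝ e z
  set y := inner ℝ f z
  have hy : y ≤ 5 := by nlinarith [sq_nonneg x]
  -- `k x ≥ - y` and `k x ≤ y`
  have hx1 : -y ≤ k * x := by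
    by_contra hcon
    push Not at hcon
    have : k ^ 2 * (k * x + y) < 0 := mul_neg_of_pos_of_neg (by positivity) (by linarith)
    nlinarith [sq_nonneg x, sq_nonneg y]
  have hx2 : k * x ≤ y := by
    by_contra hcon
    push Not at hcon
    have h3 : 0 < k ^ 2 * (k * x - y) := mul_pos (by positivity) (by linarith)
    have hc := cube_ge hk
    nlinarith [sq_nonneg x, sq_nonneg y, sq_nonneg (y - 1)]
  rw [abs_le, neg_le, le_div_iff₀ hk0, le_div_iff₀ hk0]
  constructor <;> linarith

end general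

/-- The numbers `dist (p i) (p j)`, `i ≠ j`; the least one is the minimum distance of the set. -/
def distances {d m : ℕ} (p : Fin m → EuclideanSpace ℝ (Fin d)) : Set ℝ :=
  {t | ∃ i j, i ≠ j ∧ t = dist (p i) (p j)}

/-- A fixed point free involution of the index set, i.e. a perfect matching. -/
def IsMatching {m : ℕ} (σ : Equiv.Perm (Fin m)) : Prop := (∀ i, σ (σ i) = i) ∧ ∀ i, σ i ≠ i

/-- The perfect matching `σ` of the points `p i` maximises the sum of the lengths (every pair is
counted twice). -/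
def IsMaxSum {d m : ℕ} (p : Fin m → EuclideanSpace ℝ (Fin d)) (σ : Equiv.Perm (Fin m)) : Prop :=
  IsMatching σ ∧ ∀ τ : Equiv.Perm (Fin m), IsMatching τ →
    ∑ i, dist (p i) (p (τ i)) ≤ ∑ i, dist (p i) (p (σ i))

/-- The closed ball with diameter `x y`. -/
noncomputable def ball {d : ℕ} (x y : EuclideanSpace ℝ (Fin d)) : Set (EuclideanSpace ℝ (Fin d)) :=
  Metric.closedBall (midpoint ℝ x y) (dist x y / 2)

/-- For every dimension `d ≥ 2` and every `ε > 0` there are an even number of distinct points of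
`ℝ ^ d` with minimum distance `r` and a max-sum matching of them for which the intersection of the
closed balls induced by the pairs contains no ball of radius `ε r`. -/
theorem result (d : ℕ) (hd : 2 ≤ d) (ε : ℝ) (hε : 0 < ε) :
    ∃ (n : ℕ) (p : Fin (2 * n) → EuclideanSpace ℝ (Fin d)) (r : ℝ) (σ : Equiv.Perm (Fin (2 * n))),
      Function.Injective p ∧ 0 < r ∧ IsLeast (distances p) r ∧ IsMaxSum p σ ∧
      ∀ z, ¬ Metric.closedBall z (ε * r) ⊆ ⋂ i, ball (p i) (p (σ i)) := by
  let e : EuclideanSpace ℝ (Fin d) := EuclideanSpace.single ⟨0, by omega⟩ 1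
  let f : EuclideanSpace ℝ (Fin d) := EuclideanSpace.single ⟨1, by omega⟩ 1
  have he : ‖e‖ = 1 := by simp [e]
  have hf : ‖f‖ = 1 := by simp [f]
  have hef : inner ℝ e f = 0 := by
    simp only [e, f, EuclideanSpace.inner_single_left, PiLp.single_apply, Fin.mk.injEq]
    norm_num
  obtain ⟨k, hk⟩ : ∃ k, k = max 5 (6 / ε) := ⟨_, rfl⟩
  have hk5 : 5 ≤ k := hk ▸ le_max_left _ _
  have hkε : 6 / ε ≤ k := hk ▸ le_max_right _ _
  have hone := one_le_dist he hf hef hk5
  refine ⟨3, pts e f k, 1, sw, ?_, one_pos, ⟨?_, ?_⟩, ⟨⟨?_, ?_⟩, ?_⟩, ?_⟩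
  · intro i j hij
    by_contra hne
    have := hone i j hne
    change pts e f k i = pts e f k j at hij
    rw [hij, dist_self] at this
    linarith
  · refine ⟨2, 3, by decide, ?_⟩
    change (1 : ℝ) = dist (P e f 0 0) (P e f 0 1)
    rw [dist_P he hf hef]
    norm_num
  · rintro t ⟨i, j, hij, rfl⟩
    exact hone i j hij
  · change ∀ i : Fin 6, sw (sw i) = i
    decide
  · change ∀ i : Fin 6, sw i ≠ i
    decide
  · intro τ hτ
    change ∑ i : Fin 6, dist (pts e f k i) (pts e f k (τ i)) ≤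
      ∑ i : Fin 6, dist (pts e f k i) (pts e f k (sw i))
    have h1 : ∑ i : Fin 6, dist (pts e f k i) (pts e f k (τ i)) ≤
        ∑ i : Fin 6, (w k i + w k (τ i)) :=
      Finset.sum_le_sum fun i _ => dist_le he hf hef hk5 i (τ i) fun h => hτ.2 i h.symm
    have h2 : ∑ i : Fin 6, (w k i + w k (τ i)) = ∑ i, w k i + ∑ i, w k i := by
      rw [Finset.sum_add_distrib]
      congr 1
      exact Equiv.sum_comp τ (w k)
    have h3 : ∑ i : Fin 6, dist (pts e f k i) (pts e f k (sw i)) =
        ∑ i, w k i + ∑ i, w k i := by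
      rw [Finset.sum_congr rfl fun i _ => dist_sw he hf hef i, Finset.sum_add_distrib]
      congr 1
      exact Equiv.sum_comp sw (w k)
    rw [h3, ← h2]
    exact h1
  · intro z hz
    have hmem : ∀ u ∈ Metric.closedBall z (ε * 1), |inner ℝ e u| ≤ 5 / k := by
      intro u hu
      have hu' := Set.mem_iInter.1 (hz hu)
      exact bounds he hf hef hk5 (hu' (0 : Fin 6)) (hu' (1 : Fin 6)) (hu' (4 : Fin 6))
    have h1 := hmem (z + ε • e) (by
      rw [Metric.mem_closedBall, dist_eq_norm]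
      have : z + ε • e - z = ε • e := by abel
      rw [this, norm_smul, he, Real.norm_eq_abs, abs_of_pos hε])
    have h2 := hmem (z - ε • e) (by
      rw [Metric.mem_closedBall, dist_eq_norm]
      have : z - ε • e - z = -(ε • e) := by abel
      rw [this, norm_neg, norm_smul, he, Real.norm_eq_abs, abs_of_pos hε])
    have hee : inner ℝ e e = 1 := by rw [real_inner_self_eq_norm_sq, he]; norm_num
    rw [inner_add_right, real_inner_smul_right, hee, mul_one] at h1
    rw [inner_sub_right, real_inner_smul_right, hee, mul_one] at h2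
    rw [abs_le] at h1 h2
    have h3 : 5 / k < ε := by
      rw [div_lt_iff₀ (by linarith)]
      rw [div_le_iff₀ hε] at hkε
      linarith
    linarith [h1.2, h2.1]

end Pool.Agent.Results.MP_70625d_co.NoCommonBallFromDimTwo
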